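import Pool.Agent.H19.KL.Stmts

/-!
# Project KL: module DAV: derivative of the posterior means
-/

set_option autoImplicit false

open MeasureTheory Set
open scoped ContDiff

namespace Pool.Agent.H19.KL

open Pool.Agent.H84 Pool.Agent.H84.Sym Pool.Agent.H84.Sym.P2x Pool.Agent.H84.Sym.C29

/-- DAV: the derivative of the posterior means -/
theorem dav_thm (E : Type) [NormedAddCommGroup E] [InnerProductSpace ℝ E]
    [FiniteDimensional ℝ E] [MeasurableSpace E] [BorelSpace E] (h1 : NCDStmt E) : DAVStmt E := by
  intro U s hU F hF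
  have hone : GC (fun _ : E => (1:ℝ)) := by
    exact GC.const 1
  obtain ⟨hf, hf'⟩ := h1 U s hU F hF
  obtain ⟨hg, hg'⟩ := h1 U s hU _ hone
  have hpos : ∀ y, NI U s (fun _ => 1) y ≠ 0 := fun y => (NI_one_pos hU y).ne'
  have hf1 : ContDiff ℝ 1 (NI U s F) := hf.of_le (by norm_num)
  have hg1 : ContDiff ℝ 1 (NI U s (fun _ => 1)) := hg.of_le (by norm_num)
  have he : av U s F = fun y => NI U s F y / NI U s (fun _ => 1) y := rfl
  have hc : ContDiff ℝ 1 (av U s F) := by
    rw [he]
    exact hf1.div hg1 hpos
  refine ⟨hc, ?_⟩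
  intro y w
  have had : DifferentiableAt ℝ (av U s F) y := (hc.differentiable (by norm_num)) y
  have hgd : DifferentiableAt ℝ (NI U s (fun _ => 1)) y := (hg1.differentiable (by norm_num)) y
  have hm : NI U s F = fun y => av U s F y * NI U s (fun _ => 1) y := by
    ext z
    rw [he]
    have := hpos z
    field_simp
  have h2 : fderiv ℝ (NI U s F) y = av U s F y • fderiv ℝ (NI U s (fun _ => 1)) y +
      NI U s (fun _ => 1) y • fderiv ℝ (av U s F) y := by
    conv_lhs => rw [hm]
    exact (had.hasFDerivAt.mul hgd.hasFDerivAt).fderiv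
  have h3 := congrArg (fun L => L w) h2
  simp only [add_apply, smul_apply, smul_eq_mul] at h3
  have hg2 := hg' y w
  simp only [one_mul] at hg2
  rw [hf' y w, hg2] at h3
  have h4 : NI U s (fun _ => 1) y * fderiv ℝ (av U s F) y w =
      s * (NI U s (fun x => F x * inner ℝ x w) y - inner ℝ y w * NI U s F y) -
      av U s F y * (s * (NI U s (fun x => inner ℝ x w) y - inner ℝ y w * NI U s (fun _ => 1) y)) := by
    linarith
  have h5 : fderiv ℝ (av U s F) y w = (s * (NI U s (fun x => F x * inner ℝ x w) y -
      inner ℝ y w * NI U s F y) - av U s F y * (s * (NI U s (fun x => inner ℝ x w) y -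
      inner ℝ y w * NI U s (fun _ => 1) y))) / NI U s (fun _ => 1) y := by
    rw [← h4]
    have := hpos y
    field_simp
  rw [h5]
  unfold av
  have := hpos y
  field_simp
  ring

end Pool.Agent.H19.KL
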